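import Pool.Agent.W658.KZ.MA0

/-!
# Step A, deterministic part
-/

set_option autoImplicit false

namespace Pool.Agent.W658.KZ
open H974 H906.Cyl
open H12S (Dir hbE segD rimE H4 Crs Nr sqE)
open Pool.Agent.H160R2.ML (nm)
open Pool.Agent.H160R2.MU (Cel csq cpos prd shf BxS Bxs EP inSq PC Bad Cc)
open Pool.Agent.W808.HU (PTr)
open Pool.Agent.W801.OU
open Pool.Agent.W808.KZ
open Pool.Agent.W808.KZ.TDET (D)
open Pool.Agent.W808.KZ.Per (te tp)

namespace TMA

open Relation (EqvGen)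

/-! ### extent of boxes and tube -/

section geo
variable {N r : ℕ} {C : Cel} {n M : ℕ} {F : Finset Edg}

/-- squares of the boxes -/
theorem eb_ext (hn : n = prd N N * r) {e : Edg} (he : e ∈ EB N r) :
    ∃ q : ℤ, (-(2 * (N * r) : ℤ) ≤ e.1 + e.2.1 - 2 * n * q ∧
      e.1 + e.2.1 - 2 * n * q + 1 ≤ 2 * (N * r)) ∧ -(2 * (N * r) : ℤ) ≤ dco e ∧
      dco e + 1 ≤ 2 * (N * r) := by
  obtain ⟨z, ⟨q, h1, h2, h3, h4⟩, he⟩ := he
  rw [Per.mem_sq] at he
  have e1 : (r : ℤ) * z.1 = r * (shf N N q z).1 + n * q := by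
    unfold shf; rw [hn]; push_cast; ring
  have e2 : (r : ℤ) * z.2 = r * (shf N N q z).2 + n * q := by
    unfold shf; rw [hn]; push_cast; ring
  rw [e1, e2] at he
  generalize shf N N q z = w at *
  have b1 : -((N : ℤ) * r) ≤ r * w.1 := by nlinarith
  have b2 : (r : ℤ) * w.1 + r ≤ N * r := by nlinarith
  have b3 : -((N : ℤ) * r) ≤ r * w.2 := by nlinarith
  have b4 : (r : ℤ) * w.2 + r ≤ N * r := by nlinarith
  refine ⟨q, ?_⟩
  obtain ⟨x, y, _ | _⟩ := e
  · simp only [Bool.false_eq_true, if_false, dco] at he ⊢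
    have : (2 : ℤ) * n * q = n * q + n * q := by ring
    rw [this]
    omega
  · simp only [if_true, dco] at he ⊢
    have : (2 : ℤ) * n * q = n * q + n * q := by ring
    rw [this]
    omega

/-- squares of the tube -/
theorem et_ext (h3 : S_z3) (hN : 16 ≤ N) (hC : AdmZ N C) (hn : n = prd N N * r) {e : Edg}
    (he : e ∈ ET N r C) : (-((3 * N + 3) * r : ℤ) ≤ dco e + 1 ∧ dco e ≤ (3 * N + 3) * r) ∧
    ∀ q : ℤ, (e.1 + e.2.1 - 2 * n * q ≤ -(4 * r : ℤ)) ∨ (5 * r : ℤ) ≤ e.1 + e.2.1 - 2 * n * q ∨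
      (15 * r : ℤ) - 1 ≤ dco e := by
  obtain ⟨z, hz, he⟩ := he
  have hx := (h3 N C hN hC _ rfl).2.2.2.1 z (Or.inr hz)
  rw [abs_le] at hx
  rw [Per.mem_sq] at he
  constructor
  · have b1 : (r : ℤ) * z.1 - r * z.2 ≤ (3 * N + 2) * r := by nlinarith
    have b2 : -((3 * N + 2) * r : ℤ) ≤ (r : ℤ) * z.1 - r * z.2 := by nlinarith
    have b3 : ((3 * N + 3) * r : ℤ) = (3 * N + 2) * r + r := by ring
    rw [b3]
    obtain ⟨x, y, _ | _⟩ := e
    · simp only [Bool.false_eq_true, if_false, dco] at he ⊢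
      omega
    · simp only [if_true, dco] at he ⊢
      omega
  · intro q
    have e1 : (r : ℤ) * z.1 = r * (shf N N q z).1 + n * q := by
      unfold shf; rw [hn]; push_cast; ring
    have e2 : (r : ℤ) * z.2 = r * (shf N N q z).2 + n * q := by
      unfold shf; rw [hn]; push_cast; ring
    rw [e1, e2] at he
    have hy := (h3 N C hN hC _ rfl).2.2.2.2 z hz q
    generalize shf N N q z = w at *
    have hN' : (16 : ℤ) ≤ N := by exact_mod_cast hN
    have hsum : (2 : ℤ) * n * q = n * q + n * q := by ring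
    rw [hsum]
    rcases hy with hy | hy | hy
    · right; right
      have : (r : ℤ) * 16 ≤ r * w.1 - r * w.2 := by nlinarith
      obtain ⟨x, y, _ | _⟩ := e
      · simp only [Bool.false_eq_true, if_false, dco] at he ⊢
        omega
      · simp only [if_true, dco] at he ⊢
        omega
    · left
      have : (r : ℤ) * w.1 + r * w.2 ≤ -(6 * r) := by nlinarith
      obtain ⟨x, y, _ | _⟩ := e
      · simp only [Bool.false_eq_true, if_false] at he ⊢
        omega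
      · simp only [if_true] at he ⊢
        omega
    · right; left
      have : (5 : ℤ) * r ≤ (r : ℤ) * w.1 + r * w.2 := by nlinarith
      obtain ⟨x, y, _ | _⟩ := e
      · simp only [Bool.false_eq_true, if_false] at he ⊢
        omega
      · simp only [if_true] at he ⊢
        omega

/-- the squares of the tube are away from the zippers -/
theorem et_tr (h3 : S_z3) (hN : 16 ≤ N) (hr : 4 ≤ r) (hC : AdmZ N C) (hn : n = prd N N * r)
    {e : Edg} (he : e ∈ ET N r C) : Tr n e := by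
  have hx := (et_ext h3 hN hC hn he).2
  intro hd
  constructor
  · intro hs
    obtain ⟨q, hq⟩ := TCOC.mem_Zn.1 hs
    have := hx q
    omega
  · intro hs
    obtain ⟨q, hq⟩ := TCOC.mem_Zn.1 hs
    have := hx q
    omega

/-- class `0` of the tube -/
def TV (N r : ℕ) (C : Cel) (n : ℕ) (x : ℤ × ℤ) : Prop :=
  ∃ e : Edg, e ∉ EB N r ∧ e ∈ ET N r C ∧ Cor (Zn n) 0 e x

theorem TV_tp (h3 : S_z3) (hN : 16 ≤ N) (hC : AdmZ N C) (hn : n = prd N N * r) (q : ℤ)
    {x : ℤ × ℤ} (h : TV N r C n x) : TV N r C n (tp n q x) := by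
  obtain ⟨e, h1, h2, h4⟩ := h
  exact ⟨te n q e, fun h => h1 ((Per.EB_te h3 hN hC hn q e).1 h),
    (Per.ET_te h3 hN hC hn q e).2 h2, Per.Cor_te1 q h4⟩

theorem even_cor {e : Edg} {x : ℤ × ℤ} (hx : Cn e x) (hp : (x.1 + x.2) % 2 = 0) :
    x = vp (src e) ∨ x = vp (tgt e) := by
  obtain ⟨x1, x2⟩ := x
  unfold Cn at hx
  obtain ⟨a, b, _ | _⟩ := e
  · simp only [dco, Bool.false_eq_true, if_false] at hx hp
    simp only [src_mk, tgt_false, vp, Prod.mk.injEq]
    omega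
  · simp only [dco, if_true] at hx hp
    simp only [src_mk, tgt_true, vp, Prod.mk.injEq]
    omega

theorem tv_vp (d : D N r C n M F) {x : ℤ × ℤ} (h : TV N r C n x) :
    ∃ (z : ℤ × ℤ) (u : Vtx), z ∈ TubZ N C ∧ inSq r z u ∧ x = vp u := by
  obtain ⟨e, h1, h2, h4⟩ := h
  have ht := et_tr d.z3 d.hN d.hr d.hC d.hn h2
  obtain ⟨h5, h6⟩ := (cor_tr ht (Or.inl rfl)).1 h4
  obtain ⟨z, hz, hez⟩ := h2
  obtain ⟨q1, q2⟩ := Pool.Agent.H160R2.MU.TDET.sqE_inSq hez
  rcases even_cor h5 h6 with h | h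
  · exact ⟨z, _, hz, q1, h⟩
  · exact ⟨z, _, hz, q2, h⟩

/-- the tube is connected -/
theorem tv_conn (d : D N r C n M F) {x y : ℤ × ℤ} (hx : TV N r C n x) (hy : TV N r C n y) :
    RC n (per n (FA N r C n M F)) x y := by
  obtain ⟨z, u, hz, hu, rfl⟩ := tv_vp d hx
  obtain ⟨z', u', hz', hu', rfl⟩ := tv_vp d hy
  have hr := d.hr
  exact d.tube ((d.z2 N C d.hN d.hC).1 r z z' u u' (by omega) hz hz' hu hu')

/-- the state of the tube -/
theorem fa_tube (d : D N r C n M F) {e : Edg} (h1 : e ∉ EB N r) (h2 : e ∈ ET N r C) :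
    e ∈ per n (FA N r C n M F) := by
  rw [d.mem]
  obtain ⟨z, hz, he⟩ := h2
  have hd := d.ext hz he
  exact ⟨red_mem d.n0 hd.1 hd.2, Or.inr ⟨h1, z, hz, he⟩⟩

/-- the state of the closed region -/
theorem fa_out (d : D N r C n M F) {e : Edg} (h1 : e ∉ EB N r) (h2 : e ∉ ET N r C) :
    e ∉ per n (FA N r C n M F) := by
  rw [d.mem]
  rintro ⟨-, ⟨h, -⟩ | ⟨-, h⟩⟩
  · exact h1 h
  · exact h2 h

/-- a cluster which goes to another tip leaves the box -/
theorem exit (d : D N r C n M F) {a b : ℕ} {s : ℤ} (ha : a < 3) (hb : b < 3) (hs : s ≠ 0)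
    (h : RC n (per n (FA N r C n M F)) (scz n 0 a) (scz n s b)) :
    ∃ x : ℤ × ℤ, RC n (per n (FA N r C n M F)) (scz n 0 a) x ∧ (XE N r C n x ∨ TV N r C n x) := by
  by_contra hcon
  push Not at hcon
  have hnr := d.hnr
  have h64 := d.Nr0
  have key : RC n (per n (FA N r C n M F)) (scz n 0 a) (scz n 0 a) ∧
      |(scz n 0 a).1| ≤ 2 * (N * r) + 2 ↔
      RC n (per n (FA N r C n M F)) (scz n 0 a) (scz n s b) ∧
      |(scz n s b).1| ≤ 2 * (N * r) + 2 := by
    refine step_closed (P := fun z => RC n (per n (FA N r C n M F)) (scz n 0 a) z ∧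
      |z.1| ≤ 2 * (N * r) + 2) ?_ h
    rintro e x y hst ⟨hx1, hx2⟩
    have hy1 := rc_trans hx1 hst.rc
    refine ⟨hy1, ?_⟩
    have hc := hst.cor
    by_cases hB : e ∈ EB N r
    · obtain ⟨q, ⟨b1, b2⟩, -⟩ := eb_ext d.hn hB
      have hx3 : e.1 + e.2.1 - 1 ≤ x.1 ∧ x.1 ≤ e.1 + e.2.1 + 1 ∧
          e.1 + e.2.1 - 1 ≤ y.1 ∧ y.1 ≤ e.1 + e.2.1 + 1 := by
        rcases hc with ⟨-, k1, k2⟩ | ⟨-, k1, k2⟩
        · have := cor_near k1
          have := cor_near k2
          omega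
        · have := cor_near k1
          have := cor_near k2
          omega
      rw [abs_le] at hx2 ⊢
      have hq0 : q = 0 := by
        by_contra hq
        rcases lt_or_gt_of_ne hq with hq | hq
        · have : 2 * (n : ℤ) * q ≤ -(2 * n) := by nlinarith
          omega
        · have : 2 * (n : ℤ) ≤ 2 * n * q := by nlinarith
          omega
      rw [hq0, mul_zero] at b1 b2
      omega
    · exfalso
      by_cases hT : e ∈ ET N r C
      · have he := fa_tube d hB hT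
        rcases hc with ⟨-, k1, -⟩ | ⟨k, -⟩
        · exact (hcon x hx1).2 ⟨e, hB, hT, k1⟩
        · exact k he
      · have he := fa_out d hB hT
        rcases hc with ⟨k, -⟩ | ⟨-, k1, -⟩
        · exact he k
        · exact (hcon x hx1).1 ⟨e, hB, hT, k1⟩
  have h0 : |(scz n 0 a).1| ≤ 2 * ((N : ℤ) * r) + 2 := by
    unfold scz
    simp only [mul_zero, zero_add]
    rw [abs_le]
    omega
  have h1 := (key.1 ⟨rc_refl _, h0⟩).2
  unfold scz at h1
  simp only at h1
  rw [abs_le] at h1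
  rcases lt_or_gt_of_ne hs with hq | hq
  · have : 2 * (n : ℤ) * s ≤ -(2 * n) := by nlinarith
    omega
  · have : 2 * (n : ℤ) ≤ 2 * n * s := by nlinarith
    omega

end geo

/-! ### the data of step A -/

structure Ctx (N r ρ l : ℕ) (C : Cel) (n M : ℕ) (F G : Finset Edg) (c : ℕ) : Prop where
  tri : S_TRIc
  z2 : S_z2
  z3 : S_z3
  ex : S_EX
  xch : S_XCH
  exa : S_EXA1
  sepa : S_SEPA
  hN : 16 ≤ N
  hC : AdmZ N C
  hl : 1 ≤ l
  hlr : 32 * l ≤ ρ
  hrr : 64 * ρ ≤ r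
  hn : n = prd N N * r
  hM : M = 4 * n
  hF : F ⊆ CE n M
  hG : G ⊆ CE n M
  bad : ¬ Bad 1 N r ρ l (prd N N) n M F
  ptr : PTr 1 n M l G
  g3 : G3 n (per n (FA N r C n M F))
  hc : c < 3
  nc : ∀ x : ℤ × ℤ, XE N r C n x → ¬ RC n (per n (FA N r C n M F)) (scz n 0 c) x

/-- the unexplored squares are open -/
noncomputable abbrev F1 (N r : ℕ) (C : Cel) (n M : ℕ) (F : Finset Edg) : Finset Edg :=
  mrg (ExA1 N r C n M F) F (CE n M)

/-- the configurations -/
abbrev G0 (N r : ℕ) (C : Cel) (n M : ℕ) (F : Finset Edg) : Set Edg := per n (FA N r C n M F)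
abbrev G1 (N r : ℕ) (C : Cel) (n M : ℕ) (F : Finset Edg) : Set Edg :=
  per n (FA N r C n M (F1 N r C n M F))
abbrev G2 (N r : ℕ) (C : Cel) (n M : ℕ) (F G : Finset Edg) : Set Edg :=
  per n (FB N r C n M (mrg (ExA1 N r C n M F) F G))

section ctx
variable {N r ρ l : ℕ} {C : Cel} {n M : ℕ} {F G : Finset Edg} {c : ℕ}

theorem Ctx.r0 (X : Ctx N r ρ l C n M F G c) : 2048 ≤ r ∧ 2048 * l ≤ r := by
  have h1 := X.hl
  have h2 := X.hlr
  have h3 := X.hrr
  omega

theorem Ctx.d (X : Ctx N r ρ l C n M F G c) : D N r C n M F :=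
  { z2 := X.z2, z3 := X.z3, ex := X.ex, hN := X.hN, hr := by have := X.r0; omega, hC := X.hC,
    hn := X.hn, hM := X.hM, hF := X.hF }

theorem mrg_sub {X F G S : Finset Edg} (hF : F ⊆ S) (hG : G ⊆ S) : mrg X F G ⊆ S := by
  intro e he
  rw [TEXA.mem_mrg] at he
  rcases he with h | h
  · exact hF h.1
  · exact hG h.1

theorem Ctx.d1 (X : Ctx N r ρ l C n M F G c) : D N r C n M (F1 N r C n M F) :=
  { z2 := X.z2, z3 := X.z3, ex := X.ex, hN := X.hN, hr := by have := X.r0; omega, hC := X.hC,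
    hn := X.hn, hM := X.hM, hF := mrg_sub X.hF (Finset.Subset.refl _) }

theorem Ctx.n2 (X : Ctx N r ρ l C n M F G c) : 2 ≤ n := by
  have h1 := X.d.hnr
  have h2 := X.d.Nr0
  omega

/-- the clusters of the closed region -/
abbrev K (N r : ℕ) (C : Cel) (n M : ℕ) (F : Finset Edg) (x : ℤ × ℤ) : Prop := KA1 N r C n M F x

theorem Ctx.exa1 (X : Ctx N r ρ l C n M F G c) {x y : ℤ × ℤ} (hx : K N r C n M F x) :
    RC n (G1 N r C n M F) x y ↔ RC n (G0 N r C n M F) x y :=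
  (X.exa N r C X.hN (by have := X.r0; omega) X.hC n M X.hn X.hM F (CE n M) X.hF
    (Finset.Subset.refl _)).2.2 x y hx

theorem K_rc {x y : ℤ × ℤ} (hx : K N r C n M F x) (h : RC n (G0 N r C n M F) x y) :
    K N r C n M F y := by
  obtain ⟨z, h1, h2⟩ := hx
  exact ⟨z, h1, rc_trans h2 h⟩

theorem Ctx.K_rc1 (X : Ctx N r ρ l C n M F G c) {x y : ℤ × ℤ} (hx : K N r C n M F x)
    (h : RC n (G1 N r C n M F) x y) : K N r C n M F y := K_rc hx ((X.exa1 hx).1 h)

theorem K_xe {x : ℤ × ℤ} (hx : XE N r C n x) : K N r C n M F x := ⟨x, hx, rc_refl _⟩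

theorem Ctx.K_tp (X : Ctx N r ρ l C n M F G c) (q : ℤ) {x : ℤ × ℤ} (hx : K N r C n M F x) :
    K N r C n M F (tp n q x) := by
  obtain ⟨z, h1, h2⟩ := hx
  exact ⟨tp n q z, Per.XE_tp X.z3 X.hN X.hC X.hn q h1, Per.RC_tp X.d.n0 _ q h2⟩

/-- the sectors other than `c` are in the clusters of the closed region -/
theorem Ctx.K_sec (X : Ctx N r ρ l C n M F G c) {a : ℕ} (ha : a < 3) (hac : a ≠ c) (s : ℤ) :
    K N r C n M F (scz n s a) := by
  have key : K N r C n M F (scz n 0 a) := by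
    obtain ⟨s1, hs1, b, hb, h1⟩ := X.g3.2 a ha
    obtain ⟨x, hx1, hx2 | hx2⟩ := exit X.d ha hb hs1 h1
    · exact ⟨x, hx2, rc_symm hx1⟩
    · exfalso
      obtain ⟨s2, hs2, b', hb', h2⟩ := X.g3.2 c X.hc
      obtain ⟨y, hy1, hy2 | hy2⟩ := exit X.d X.hc hb' hs2 h2
      · exact X.nc y hy2 hy1
      · exact X.g3.1 a c ha X.hc hac (rc_trans hx1 (rc_trans (tv_conn X.d hx2 hy2) (rc_symm hy1)))
  have := X.K_tp s key
  rw [Per.tp_scz, zero_add] at this
  exact this

/-- the cluster of the sector `c` -/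
abbrev T1 (N r : ℕ) (C : Cel) (n M : ℕ) (F : Finset Edg) (c : ℕ) (x : ℤ × ℤ) : Prop :=
  RC n (G1 N r C n M F) (scz n 0 c) x

theorem Ctx.T1_nK (X : Ctx N r ρ l C n M F G c) {x : ℤ × ℤ} (h : T1 N r C n M F c x) :
    ¬ K N r C n M F x := by
  intro hk
  obtain ⟨y, h1, h2⟩ := X.K_rc1 hk (rc_symm h)
  exact X.nc y h1 (rc_symm h2)

theorem Ctx.g3' (X : Ctx N r ρ l C n M F G c) : G3 n (G1 N r C n M F) := by
  have key : ∀ a b : ℕ, a < 3 → b < 3 → a ≠ b → ¬ RC n (G1 N r C n M F) (scz n 0 a) (scz n 0 b) := by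
    intro a b ha hb hab h
    by_cases hac : a = c
    · have hbc : b ≠ c := fun h => hab (hac.trans h.symm)
      exact X.g3.1 b a hb ha (Ne.symm hab) ((X.exa1 (X.K_sec hb hbc 0)).1 (rc_symm h))
    · exact X.g3.1 a b ha hb hab ((X.exa1 (X.K_sec ha hac 0)).1 h)
  have hFA : FA N r C n M (F1 N r C n M F) ⊆ CE n M := fun e he => (TEXA.mem_FA.1 he).1
  rcases X.tri n M X.n2 _ hFA with h | ⟨t, a, b, ht, ha, hb, hta, htb, hab, h, -⟩
  · exact h
  · exact absurd h (key a b ha hb hab)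

theorem Ctx.T1_TV (X : Ctx N r ρ l C n M F G c) {x : ℤ × ℤ} (h : TV N r C n x) :
    T1 N r C n M F c x := by
  obtain ⟨s2, hs2, b', hb', h2⟩ := X.g3'.2 c X.hc
  obtain ⟨y, hy1, hy2 | hy2⟩ := exit X.d1 X.hc hb' hs2 h2
  · exact absurd (K_xe hy2) (X.T1_nK hy1)
  · exact rc_trans hy1 (tv_conn X.d1 hy2 h)

theorem Ctx.T1_sec (X : Ctx N r ρ l C n M F G c) (s : ℤ) : T1 N r C n M F c (scz n s c) := by
  obtain ⟨s2, hs2, b', hb', h2⟩ := X.g3'.2 c X.hc
  obtain ⟨y, hy1, hy2 | hy2⟩ := exit X.d1 X.hc hb' hs2 h2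
  · exact absurd (K_xe hy2) (X.T1_nK hy1)
  · have h3 := X.T1_TV (TV_tp X.z3 X.hN X.hC X.hn s hy2)
    have h4 := Per.RC_tp X.d.n0 _ s hy1
    rw [Per.tp_scz, zero_add] at h4
    exact rc_trans h3 (rc_symm h4)

/-- the sides at a tip -/
theorem tip_side {n a b : ℕ} (s : ℤ) (ha : a < 3) (hb : b < 3) (hab : a ≠ b) :
    Side (Zn n) (scz n s a) (scz n s b) ∨ Side (Zn n) (scz n s b) (scz n s a) := by
  have hz : (2 * n * s : ℤ) ∈ Zn n := TCOC.mem_Zn.2 ⟨s, rfl⟩
  have key : ∀ a b : ℕ, a < 3 → b < 3 → a < b →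
      Side (Zn n) (scz n s a) (scz n s b) ∨ Side (Zn n) (scz n s b) (scz n s a) := by
    intro a b _ hb hab
    have h0 : ∀ s' : ℤ, Tr n (edz s' 0) := by
      intro s' h
      rw [TCOC.edz_d] at h
      omega
    have h3 : (a = 0 ∧ b = 1) ∨ (a = 1 ∧ b = 2) ∨ (a = 0 ∧ b = 2) := by omega
    rcases h3 with ⟨rfl, rfl⟩ | ⟨rfl, rfl⟩ | ⟨rfl, rfl⟩
    · left
      have h := Side.bot (Z := Zn n) (edz (2 * n * s - 1) 0) (h0 _).zp
      rw [(h0 _).nrm0, (h0 _).nrm1, TCOC.edz_s, TCOC.edz_d] at h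
      convert h using 1
      · unfold scz; simp
      · unfold scz; simp
    · left
      have h := Side.bot (Z := Zn n) (edz (2 * n * s) 0) (h0 _).zp
      rw [(h0 _).nrm0, (h0 _).nrm1, TCOC.edz_s, TCOC.edz_d] at h
      convert h using 1
      · unfold scz; simp
      · unfold scz
        exact Prod.ext (by simp only; push_cast; ring) rfl
    · left
      have h1 : (2 * n * s + 1 : ℤ) ∉ Zn n := by
        intro h
        obtain ⟨q, hq⟩ := TCOC.mem_Zn.1 h
        have h2 : (2 : ℤ) ∣ 1 := ⟨n * q - n * s, by linarith⟩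
        omega
      have hzp : edz (2 * n * s) (-1) ∉ zp (Zn n) := by
        rintro ⟨-, h⟩
        rw [TCOC.edz_s] at h
        exact h1 h
      have h := Side.top (Z := Zn n) (edz (2 * n * s) (-1)) hzp
      rw [TCOC.edz_s, TCOC.edz_d] at h
      unfold nrm at h
      rw [if_pos ⟨by norm_num, hz⟩, if_neg (fun h => h1 h.2)] at h
      convert h using 1
      · unfold scz; simp
      · unfold scz
        exact Prod.ext (by simp only; push_cast; ring) (by simp)
  rcases lt_or_gt_of_ne hab with h | h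
  · exact key a b ha hb h
  · exact (key b a hb ha h).symm

/-- **no point adjacent to both clusters** -/
theorem Ctx.cont (X : Ctx N r ρ l C n M F G c) {y v k : ℤ × ℤ} (hy : ¬ K N r C n M F y)
    (hv : T1 N r C n M F c v) (hyv : Side (Zn n) y v ∨ Side (Zn n) v y)
    (hk : K N r C n M F k) (hyk : Side (Zn n) y k ∨ Side (Zn n) k y)
    (hk2 : k.2 < (3 * N + 1) * r) : False := by
  have hnyv : ¬ RC n (G1 N r C n M F) y v := by
    rcases hyv with h | h
    · exact t_NA n _ X.n2 X.g3' y v h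
    · exact fun h' => t_NA n _ X.n2 X.g3' v y h (rc_symm h')
  obtain ⟨φ, φ1, φ2⟩ := t_COC n (G1 N r C n M F)
    (fun a b => (RC n (G1 N r C n M F) y a ∧ RC n (G1 N r C n M F) v b) ∨
      (RC n (G1 N r C n M F) v a ∧ RC n (G1 N r C n M F) y b)) X.n2
    (fun a b h => h.symm.imp And.symm And.symm)
    (fun a a' b h h' => h'.imp (fun h' => ⟨rc_trans h'.1 h, h'.2⟩) (fun h' => ⟨rc_trans h'.1 h, h'.2⟩))
    (by
      intro s a b ha hb hab h
      have key : ∀ a b : ℕ, a < 3 → b < 3 → a ≠ b → RC n (G1 N r C n M F) y (scz n s a) →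
          RC n (G1 N r C n M F) v (scz n s b) → False := by
        intro a b ha hb hab h1 h2
        have hbc : b = c := by
          by_contra hbc
          exact X.T1_nK (rc_trans hv h2) (X.K_sec hb hbc s)
        have hac : a ≠ c := fun h => hab (h.trans hbc.symm)
        exact hy (X.K_rc1 (X.K_sec ha hac s) (rc_symm h1))
      rcases h with ⟨h1, h2⟩ | ⟨h1, h2⟩
      · exact key a b ha hb hab h1 h2
      · exact key b a hb ha (Ne.symm hab) h2 h1)
  have φs : ∀ x z : ℤ × ℤ, (Side (Zn n) x z ∨ Side (Zn n) z x) →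
      ((RC n (G1 N r C n M F) y x ∧ RC n (G1 N r C n M F) v z) ∨
      (RC n (G1 N r C n M F) v x ∧ RC n (G1 N r C n M F) y z)) ∨ (φ x ↔ φ z) := by
    intro x z h
    rcases h with h | h
    · by_cases h1 : φ x ↔ φ z
      · exact Or.inr h1
      · exact Or.inl ((φ2 x z h).2 h1)
    · by_cases h1 : φ x ↔ φ z
      · exact Or.inr h1
      · exact Or.inl (((φ2 z x h).2 (fun h2 => h1 h2.symm)).symm.imp And.symm And.symm)
  have hvK : ∀ x, K N r C n M F x → ¬ RC n (G1 N r C n M F) v x := fun x hx h =>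
    X.T1_nK (rc_trans hv h) hx
  have hneg : ¬ (φ y ↔ φ v) := by
    rcases hyv with h | h
    · exact (φ2 y v h).1 (Or.inl ⟨rc_refl _, rc_refl _⟩)
    · exact fun h' => (φ2 v y h).1 (Or.inr ⟨rc_refl _, rc_refl _⟩) h'.symm
  -- `φ y ↔ φ k`
  have h1 : φ y ↔ φ k := by
    rcases φs y k hyk with (⟨-, h⟩ | ⟨h, -⟩) | h
    · exact absurd h (hvK k hk)
    · exact absurd (rc_symm h) hnyv
    · exact h
  have hr4 : 4 ≤ r := by have := X.r0; omega
  have hlow : ∀ z : ℤ × ℤ, K N r C n M F z → z.2 < (3 * N + 1) * r → ∃ x : ℤ × ℤ, XE N r C n x ∧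
      x.2 < (3 * N + 1) * r ∧ (φ x ↔ φ z) := by
    rintro z ⟨x, hx1, hx2⟩ hz
    refine ⟨x, hx1, ?_, φ1 x z ((X.exa1 (K_xe hx1)).2 hx2)⟩
    by_contra hx3
    have := (X.ex N r C X.hN hr4 X.hC n M X.hn X.hM).2.2 F X.hF x z hx1 (not_lt.1 hx3) hx2
    omega
  obtain ⟨a, ha, hac⟩ : ∃ a : ℕ, a < 3 ∧ a ≠ c := by
    by_cases h : c = 0
    · exact ⟨1, by norm_num, by omega⟩
    · exact ⟨0, by norm_num, Ne.symm h⟩
  have hpos : (0 : ℤ) < (3 * N + 1) * r := by
    have : (0 : ℤ) < r := by omega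
    positivity
  obtain ⟨x1, hx1, hx1', hφ1⟩ := hlow k hk hk2
  obtain ⟨x2, hx2, hx2', hφ2⟩ := hlow _ (X.K_sec ha hac 0) hpos
  have h2 : φ x1 ↔ φ x2 := by
    refine (X.xch N r C X.hN hr4 X.hC n X.hn φ ?_ ?_).1 x1 x2 hx1 hx2 hx1' hx2'
    · intro x z h
      exact φ1 x z (X.d1.clo h)
    · intro x z hx hz h
      rcases φs x z (Or.inl h) with (⟨-, h⟩ | ⟨h, -⟩) | h
      · exact absurd h (hvK z (K_xe hz))
      · exact absurd h (hvK x (K_xe hx))
      · exact h
  have h3 : φ (scz n 0 a) ↔ φ (scz n 0 c) := by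
    rcases φs _ _ (tip_side 0 ha X.hc hac) with (⟨h, -⟩ | ⟨h, -⟩) | h
    · exact absurd (X.K_rc1 (X.K_sec ha hac 0) (rc_symm h)) hy
    · exact absurd h (hvK _ (X.K_sec ha hac 0))
    · exact h
  have h4 : φ (scz n 0 c) ↔ φ v := φ1 _ _ hv
  exact hneg (h1.trans (hφ1.symm.trans (h2.trans (hφ2.trans (h3.trans h4)))))

/-! ### the explored squares -/

/-- squares which touch the clusters -/
def Ex (N r : ℕ) (C : Cel) (n M : ℕ) (F : Finset Edg) (e : Edg) : Prop :=
  ∃ x, K N r C n M F x ∧ (Cor (Zn n) 0 e x ∨ Cor (Zn n) 1 e x)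

theorem Ctx.ceB (X : Ctx N r ρ l C n M F G c) {e : Edg} (he : e ∈ EB N r) :
    (-(M : ℤ) ≤ dco e ∧ dco e < M) ∧ dco e + 1 < (3 * N + 1) * r := by
  obtain ⟨q, -, h1, h2⟩ := eb_ext X.hn he
  have h3 := X.d.hnr
  have h4 := X.hM
  have h5 := X.d.Nr0
  have h6 : ((3 * N + 1) * r : ℤ) = 3 * (N * r) + r := by ring
  rw [h6]
  omega

theorem Ctx.ceT (X : Ctx N r ρ l C n M F G c) {e : Edg} (he : e ∈ ET N r C) :
    -(M : ℤ) ≤ dco e ∧ dco e < M := by
  obtain ⟨z, hz, he⟩ := he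
  exact X.d.ext hz he

theorem Ctx.ex_iff (X : Ctx N r ρ l C n M F G c) {e : Edg} (he : e ∈ EB N r) :
    red n e ∈ ExA1 N r C n M F ↔ Ex N r C n M F e := by
  classical
  have h0 : red n e ∈ CE n M := red_mem X.d.n0 (X.ceB he).1.1 (X.ceB he).1.2
  have h1 : red n e ∈ EB N r := (Per.EB_red X.z3 X.hN X.hC X.hn e).2 he
  simp only [ExA1, Finset.mem_filter]
  constructor
  · rintro ⟨-, -, x, hx, h⟩
    refine ⟨tp n ((e.1 + e.2.1) / (2 * n)) x, X.K_tp _ hx, ?_⟩
    rw [Per.red_eq_te] at h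
    refine h.imp ?_ ?_
    · intro h
      have := Per.Cor_te1 ((e.1 + e.2.1) / (2 * n)) h
      rw [Per.te_te, add_neg_cancel, Per.te_zero] at this
      exact this
    · intro h
      have := Per.Cor_te1 ((e.1 + e.2.1) / (2 * n)) h
      rw [Per.te_te, add_neg_cancel, Per.te_zero] at this
      exact this
  · rintro ⟨x, hx, h⟩
    refine ⟨h0, h1, tp n (-((e.1 + e.2.1) / (2 * n))) x, X.K_tp _ hx, ?_⟩
    rw [Per.red_eq_te]
    exact h.imp (Per.Cor_te1 _) (Per.Cor_te1 _)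

theorem Ctx.g2_out (X : Ctx N r ρ l C n M F G c) {e : Edg} (h1 : e ∉ EB N r) (h2 : e ∉ ET N r C) :
    e ∉ G2 N r C n M F G := by
  classical
  intro h
  have h3 : red n e ∈ FB N r C n M (mrg (ExA1 N r C n M F) F G) := h
  simp only [FB, Finset.mem_filter] at h3
  rcases h3.2.1 with h | h
  · exact h1 ((Per.EB_red X.z3 X.hN X.hC X.hn e).1 h)
  · exact h2 ((Per.ET_red X.z3 X.hN X.hC X.hn e).1 h)

theorem Ctx.g2_in (X : Ctx N r ρ l C n M F G c) {e : Edg} (h : e ∈ EB N r ∨ e ∈ ET N r C) :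
    e ∈ G2 N r C n M F G ↔ red n e ∈ mrg (ExA1 N r C n M F) F G := by
  classical
  show red n e ∈ FB N r C n M (mrg (ExA1 N r C n M F) F G) ↔ _
  simp only [FB, Finset.mem_filter]
  have h0 : red n e ∈ CE n M := by
    rcases h with h | h
    · exact red_mem X.d.n0 (X.ceB h).1.1 (X.ceB h).1.2
    · exact red_mem X.d.n0 (X.ceT h).1 (X.ceT h).2
  have h1 := h.imp (Per.EB_red X.z3 X.hN X.hC X.hn e).2 (Per.ET_red X.z3 X.hN X.hC X.hn e).2
  exact ⟨fun h => h.2.2, fun h => ⟨h0, h1, h⟩⟩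

theorem Ctx.g2_ex (X : Ctx N r ρ l C n M F G c) {e : Edg} (h : e ∈ EB N r) (hx : Ex N r C n M F e) :
    e ∈ G2 N r C n M F G ↔ e ∈ G0 N r C n M F := by
  rw [X.g2_in (Or.inl h), X.d.mem_box h, TEXA.mem_mrg]
  have := (X.ex_iff h).2 hx
  show _ ↔ red n e ∈ F
  tauto

theorem Ctx.g2_nex (X : Ctx N r ρ l C n M F G c) {e : Edg} (h : e ∈ EB N r)
    (hx : ¬ Ex N r C n M F e) : e ∈ G2 N r C n M F G ↔ e ∈ per n G := by
  rw [X.g2_in (Or.inl h), TEXA.mem_mrg]
  have := mt (X.ex_iff h).1 hx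
  show _ ↔ red n e ∈ G
  tauto

theorem Ctx.g2_tube (X : Ctx N r ρ l C n M F G c) {e : Edg} (h1 : e ∉ EB N r)
    (h2 : e ∈ ET N r C) : e ∈ G2 N r C n M F G ↔ e ∈ per n G := by
  classical
  rw [X.g2_in (Or.inr h2), TEXA.mem_mrg]
  have : red n e ∉ ExA1 N r C n M F := by
    simp only [ExA1, Finset.mem_filter]
    rintro ⟨-, h, -⟩
    exact h1 ((Per.EB_red X.z3 X.hN X.hC X.hn e).1 h)
  show _ ↔ red n e ∈ G
  tauto

/-- a closed square of `G1` in a box is explored -/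
theorem Ctx.g1_closed (X : Ctx N r ρ l C n M F G c) {e : Edg} (h : e ∈ EB N r)
    (he : e ∉ G1 N r C n M F) : Ex N r C n M F e := by
  rw [← X.ex_iff h]
  by_contra hx
  apply he
  rw [X.d1.mem_box h]
  show red n e ∈ F1 N r C n M F
  rw [TEXA.mem_mrg]
  exact Or.inr ⟨red_mem X.d.n0 (X.ceB h).1.1 (X.ceB h).1.2, hx⟩

/-- the squares around a point next to the cluster of `c` are open -/
theorem Ctx.open_sq (X : Ctx N r ρ l C n M F G c) {y v : ℤ × ℤ} (hf : Far n r y)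
    (hp : (y.1 + y.2) % 2 = 1) (hK : ¬ K N r C n M F y) (hv : nb y v) (hT : T1 N r C n M F c v)
    {e : Edg} (he : Cn e y) : e ∈ G1 N r C n M F := by
  by_contra hcl
  have hr2 : 2 ≤ r := by have := X.r0; omega
  have ht : Tr n e := hf.trc hr2 he
  by_cases hB : e ∈ EB N r
  · obtain ⟨k, hk, hc⟩ := X.g1_closed hB hcl
    have hck : Cn e k := by
      rcases hc with h | h
      · exact ((cor_tr ht (Or.inl rfl)).1 h).1
      · exact ((cor_tr ht (Or.inr rfl)).1 h).1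
    have hlk : RC n (G1 N r C n M F) y (opp e y) :=
      (st_tr ht he ⟨fun h => absurd h hcl, fun h => by omega⟩).rc
    have h4 : k = y ∨ k = opp e y ∨ nb y k := by
      obtain ⟨y1, y2⟩ := y
      obtain ⟨k1, k2⟩ := k
      unfold Cn at he hck
      unfold opp nb
      simp only [Prod.mk.injEq] at he hck ⊢
      omega
    rcases h4 with rfl | rfl | h4
    · exact hK hk
    · exact hK (X.K_rc1 hk (rc_symm hlk))
    · refine X.cont hK hT (hf.side hr2 hv) hk (hf.side hr2 h4) ?_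
      have := (X.ceB hB).2
      unfold Cn at hck
      omega
  · by_cases hE : e ∈ ET N r C
    · exact hcl (fa_tube X.d1 hB hE)
    · exact hK (K_xe ⟨e, hB, hE, (cor_tr ht (Or.inr rfl)).2 ⟨he, hp⟩⟩)

/-- all the neighbours are in the cluster of `c` -/
theorem Ctx.all4 (X : Ctx N r ρ l C n M F G c) {y v : ℤ × ℤ} (hf : Far n r y)
    (hp : (y.1 + y.2) % 2 = 1) (hK : ¬ K N r C n M F y) (hv : nb y v) (hT : T1 N r C n M F c v) :
    ∀ w : ℤ × ℤ, nb y w → T1 N r C n M F c w := by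
  have hr2 : 2 ≤ r := by have := X.r0; omega
  have key : ∀ (s d : ℤ) (x : ℤ × ℤ), Cn (edz s d) y → Cn (edz s d) x → (x.1 + x.2) % 2 = 0 →
      (T1 N r C n M F c x ↔ T1 N r C n M F c (opp (edz s d) x)) := by
    intro s d x h1 h2 h3
    have ho := X.open_sq hf hp hK hv hT h1
    have ht : Tr n (edz s d) := hf.trc hr2 h1
    have hl : RC n (G1 N r C n M F) x (opp (edz s d) x) := (st_tr ht h2 ⟨fun _ => h3, fun _ => ho⟩).rc
    exact ⟨fun h => rc_trans h hl, fun h => rc_trans h (rc_symm hl)⟩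
  obtain ⟨y1, y2⟩ := y
  simp only at hp
  have a1 : T1 N r C n M F c (y1 + 1, y2) ↔ T1 N r C n M F c (y1, y2 + 1) := by
    have := key y1 y2 (y1 + 1, y2) (by unfold Cn; rw [TCOC.edz_s, TCOC.edz_d]; simp)
      (by unfold Cn; rw [TCOC.edz_s, TCOC.edz_d]; simp) (by simp only; omega)
    unfold opp at this
    rw [TCOC.edz_s, TCOC.edz_d] at this
    simp only at this
    rw [show 2 * y1 + 1 - (y1 + 1) = y1 by ring, show 2 * y2 + 1 - y2 = y2 + 1 by ring] at this
    exact this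
  have a2 : T1 N r C n M F c (y1 - 1, y2) ↔ T1 N r C n M F c (y1, y2 + 1) := by
    have := key (y1 - 1) y2 (y1 - 1, y2) (by unfold Cn; rw [TCOC.edz_s, TCOC.edz_d]; simp)
      (by unfold Cn; rw [TCOC.edz_s, TCOC.edz_d]; simp) (by simp only; omega)
    unfold opp at this
    rw [TCOC.edz_s, TCOC.edz_d] at this
    simp only at this
    rw [show 2 * (y1 - 1) + 1 - (y1 - 1) = y1 by ring, show 2 * y2 + 1 - y2 = y2 + 1 by ring] at this
    exact this
  have a3 : T1 N r C n M F c (y1 + 1, y2) ↔ T1 N r C n M F c (y1, y2 - 1) := by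
    have := key y1 (y2 - 1) (y1 + 1, y2) (by unfold Cn; rw [TCOC.edz_s, TCOC.edz_d]; simp)
      (by unfold Cn; rw [TCOC.edz_s, TCOC.edz_d]; simp) (by simp only; omega)
    unfold opp at this
    rw [TCOC.edz_s, TCOC.edz_d] at this
    simp only at this
    rw [show 2 * y1 + 1 - (y1 + 1) = y1 by ring, show 2 * (y2 - 1) + 1 - y2 = y2 - 1 by ring] at this
    exact this
  unfold nb at *
  simp only at hv ⊢
  intro w hw
  have hE : T1 N r C n M F c (y1 + 1, y2) := by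
    rcases hv with rfl | rfl | rfl | rfl
    · exact hT
    · exact a1.2 (a2.1 hT)
    · exact a1.2 hT
    · exact a3.2 hT
  rcases hw with rfl | rfl | rfl | rfl
  · exact hE
  · exact a2.2 (a1.1 hE)
  · exact a1.1 hE
  · exact a3.1 hE

/-! ### excursions -/

/-- geometry of class `1` of the tube -/
theorem dea_geo (h3 : S_z3) (hN : 16 ≤ N) (hr : 4 ≤ r) (hC : AdmZ N C) (hn : n = prd N N * r)
    {u : ℤ × ℤ} (h : DeA N r C n u) : (u.1 + u.2) % 2 = 1 ∧ |u.2| ≤ (3 * N + 4) * r ∧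
    ∀ q : ℤ, (3 * r : ℤ) ≤ |u.1 - 2 * n * q| ∨ (3 * r : ℤ) ≤ u.2 := by
  obtain ⟨e, -, h2, h4⟩ := h
  have ht := et_tr h3 hN hr hC hn h2
  obtain ⟨h5, h6⟩ := (cor_tr ht (Or.inr rfl)).1 h4
  obtain ⟨⟨k1, k2⟩, k3⟩ := et_ext h3 hN hC hn h2
  unfold Cn at h5
  have e1 : ((3 * N + 4) * r : ℤ) = (3 * N + 3) * r + r := by ring
  refine ⟨h6, ?_, ?_⟩
  · rw [abs_le, e1]
    omega
  · intro q
    rcases k3 q with h | h | h
    · left
      rw [le_abs]
      omega
    · left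
      rw [le_abs]
      omega
    · right
      omega

theorem nrp_abs {l : ℕ} {u v : ℤ × ℤ} (h : nrp l u v) : |u.1 - v.1| ≤ 8 * l ∧ |u.2 - v.2| ≤ 8 * l := by
  unfold nrp at h
  simp only [abs_le] at h ⊢
  omega

/-- excursions outside the clusters, from the cluster of `x0` -/
def Exc (N r : ℕ) (C : Cel) (n M : ℕ) (F G : Finset Edg) (c : ℕ) (x0 z : ℤ × ℤ) : Prop :=
  (z.1 + z.2) % 2 = 1 ∧ Far n r z ∧ ¬ K N r C n M F z ∧ (∃ v, nb z v ∧ T1 N r C n M F c v) ∧
    ∃ u, RC n (G0 N r C n M F) x0 u ∧ DeA N r C n u ∧ Reach (Cc 1 n M G) (fpi u) (fpi z)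

theorem Ctx.near (X : Ctx N r ρ l C n M F G c) {u z : ℤ × ℤ} (hu : DeA N r C n u)
    (hz : (z.1 + z.2) % 2 = 1) (h : Reach (Cc 1 n M G) (fpi u) (fpi z)) : nrp l u z := by
  have hr4 : 4 ≤ r := by have := X.r0; omega
  obtain ⟨h1, h2, -⟩ := dea_geo X.z3 X.hN hr4 X.hC X.hn hu
  refine nr_fpi h1 hz (X.ptr _ _ ?_ h)
  have h3 : (fpi u).1 - (fpi u).2 = u.2 := by
    unfold fpi
    simp only
    omega
  rw [h3]
  have h5 := X.d.hnr
  have h6 : ((3 * N + 4) * r : ℤ) = 3 * (N * r) + 4 * r := by ring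
  have h7 := X.hN
  have h8 : (16 * r : ℤ) ≤ N * r := by
    have : 16 * r ≤ N * r := Nat.mul_le_mul_right _ h7
    exact_mod_cast this
  omega

theorem Ctx.far (X : Ctx N r ρ l C n M F G c) {u z : ℤ × ℤ} (hu : DeA N r C n u)
    (h : nrp l u z) : Far n r z := by
  have hr4 := X.r0
  obtain ⟨-, -, h2⟩ := dea_geo X.z3 X.hN (by omega) X.hC X.hn hu
  obtain ⟨h3, h4⟩ := nrp_abs h
  intro q
  rw [abs_le] at h3 h4
  rcases h2 q with h5 | h5
  · left
    rw [le_abs] at h5 ⊢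
    omega
  · right
    omega

theorem Ctx.merge (X : Ctx N r ρ l C n M F G c) {x0 u z : ℤ × ℤ} (h0 : XA N r C n x0)
    (hu : RC n (G0 N r C n M F) x0 u) (hd : DeA N r C n u) (hz : K N r C n M F z)
    (hdz : DeA N r C n z) (h : nrp l u z) : RC n (G0 N r C n M F) x0 z := by
  obtain ⟨y, hy1, hy2⟩ := hz
  exact rc_trans (X.sepa N r ρ l C X.hN X.hC X.hl X.hlr X.hrr n M X.hn X.hM F X.hF X.bad x0 y u z h0
    (Or.inr (Or.inl hy1)) hu hy2 hd hdz h) hy2

/-- **the main induction** -/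
theorem Ctx.main (X : Ctx N r ρ l C n M F G c) {x0 : ℤ × ℤ} (h0 : XA N r C n x0)
    (hK0 : K N r C n M F x0) {z : ℤ × ℤ} (h : RC n (G2 N r C n M F G) x0 z) :
    RC n (G0 N r C n M F) x0 z ∨ Exc N r C n M F G c x0 z := by
  have hr2 : 2 ≤ r := by have := X.r0; omega
  have hr4 : 4 ≤ r := by have := X.r0; omega
  refine (step_closed (P := fun z => RC n (G0 N r C n M F) x0 z ∨ Exc N r C n M F G c x0 z) ?_ h).1
    (Or.inl (rc_refl _))
  rintro e x y hst (hx | hx)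
  · -- in the cluster
    have hKx : K N r C n M F x := K_rc hK0 hx
    by_cases hB : e ∈ EB N r
    · have hE : Ex N r C n M F e := by
        rcases hst.cor with ⟨-, h1, -⟩ | ⟨-, h1, -⟩
        · exact ⟨x, hKx, Or.inl h1⟩
        · exact ⟨x, hKx, Or.inr h1⟩
      exact Or.inl (rc_trans hx (hst.mono (X.g2_ex hB hE)).rc)
    by_cases hT : e ∈ ET N r C
    · have ht := et_tr X.z3 X.hN hr4 X.hC X.hn hT
      rcases hst.cor with ⟨-, h1, -⟩ | ⟨h1, h2, h3⟩
      · exact absurd hKx (X.T1_nK (X.T1_TV ⟨e, hB, hT, h1⟩))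
      · obtain ⟨k1, rfl, k3⟩ := hst.tr ht
        have hp : (x.1 + x.2) % 2 = 1 := ((cor_tr ht (Or.inr rfl)).1 h2).2
        have hG : e ∉ per n G := fun h => h1 ((X.g2_tube hB hT).2 h)
        have hR := reach_lk k1 hp hG (X.ceT hT).1 (X.ceT hT).2
        have hdx : DeA N r C n x := ⟨e, hB, hT, h2⟩
        have hdy : DeA N r C n (opp e x) := ⟨e, hB, hT, h3⟩
        have hpy : ((opp e x).1 + (opp e x).2) % 2 = 1 := by rw [opp_par]; exact hp
        have hnr := X.near hdx hpy hR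
        by_cases hKy : K N r C n M F (opp e x)
        · exact Or.inl (X.merge h0 hx hdx hKy hdy hnr)
        · refine Or.inr ⟨hpy, X.far hdx hnr, hKy, ?_, x, hx, hdx, hR⟩
          refine ⟨((opp e x).1, x.2), ?_, X.T1_TV ⟨e, hB, hT, ?_⟩⟩
          · unfold Cn at k1
            unfold nb opp
            simp only [Prod.mk.injEq, true_and, and_true]
            omega
          · rw [cor_tr ht (Or.inl rfl)]
            unfold Cn at k1 ⊢
            unfold opp
            simp only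
            omega
    · have h1 : e ∉ G2 N r C n M F G := X.g2_out hB hT
      have h2 : e ∉ G0 N r C n M F := fa_out X.d hB hT
      exact Or.inl (rc_trans hx (hst.mono ⟨fun h => absurd h h1, fun h => absurd h h2⟩).rc)
  · -- an excursion
    obtain ⟨hp, hf, hKx, ⟨v, hv, hTv⟩, u, hu, hd, hR⟩ := hx
    have ht : Tr n e := by
      rcases hst.cor with ⟨-, h1, -⟩ | ⟨-, h1, -⟩
      · exact hf.cor hr2 h1
      · exact hf.cor hr2 h1
    obtain ⟨k1, rfl, k3⟩ := hst.tr ht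
    have hcl : e ∉ G2 N r C n M F G := fun h => by
      have := k3.1 h
      omega
    have hpy : ((opp e x).1 + (opp e x).2) % 2 = 1 := by rw [opp_par]; exact hp
    have hall := X.all4 hf hp hKx hv hTv
    have hw : nb (opp e x) ((opp e x).1, x.2) ∧ T1 N r C n M F c ((opp e x).1, x.2) := by
      constructor
      · unfold Cn at k1
        unfold nb opp
        simp only [Prod.mk.injEq, true_and, and_true]
        omega
      · apply hall
        unfold Cn at k1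
        unfold nb opp
        simp only [Prod.mk.injEq, true_and, and_true]
        omega
    have fin : e ∉ per n G → -(M : ℤ) ≤ dco e → dco e < M → ¬ K N r C n M F (opp e x) →
        Exc N r C n M F G c x0 (opp e x) := by
      intro hG h1 h2 hKy
      have hR' : Reach (Cc 1 n M G) (fpi u) (fpi (opp e x)) := hR.trans (reach_lk k1 hp hG h1 h2)
      exact ⟨hpy, X.far hd (X.near hd hpy hR'), hKy, ⟨_, hw.1, hw.2⟩, u, hu, hd, hR'⟩
    by_cases hB : e ∈ EB N r
    · have hnE : ¬ Ex N r C n M F e := by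
        intro hE
        have hcl0 : e ∉ G0 N r C n M F := fun h => hcl ((X.g2_ex hB hE).2 h)
        have hlk : RC n (G0 N r C n M F) x (opp e x) :=
          (st_tr ht k1 ⟨fun h => absurd h hcl0, fun h => by omega⟩).rc
        obtain ⟨k, hk, hc⟩ := hE
        have hck : Cn e k := by
          rcases hc with h | h
          · exact ((cor_tr ht (Or.inl rfl)).1 h).1
          · exact ((cor_tr ht (Or.inr rfl)).1 h).1
        have h4 : k = x ∨ k = opp e x ∨ nb x k := by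
          clear hall hw fin hst hR hpy hKx hlk
          obtain ⟨y1, y2⟩ := x
          obtain ⟨k1', k2⟩ := k
          unfold Cn at k1 hck
          unfold opp nb
          simp only [Prod.mk.injEq] at k1 hck ⊢
          omega
        rcases h4 with rfl | rfl | h4
        · exact hKx hk
        · exact hKx (K_rc hk (rc_symm hlk))
        · exact X.T1_nK (hall k h4) hk
      refine Or.inr (fin (fun h => hcl ((X.g2_nex hB hnE).2 h)) (X.ceB hB).1.1 (X.ceB hB).1.2 ?_)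
      intro hKy
      apply hnE
      exact ⟨opp e x, hKy, Or.inr ((cor_tr ht (Or.inr rfl)).2 ⟨k1.opp, hpy⟩)⟩
    by_cases hT : e ∈ ET N r C
    · have hG : e ∉ per n G := fun h => hcl ((X.g2_tube hB hT).2 h)
      by_cases hKy : K N r C n M F (opp e x)
      · have hR' : Reach (Cc 1 n M G) (fpi u) (fpi (opp e x)) :=
          hR.trans (reach_lk k1 hp hG (X.ceT hT).1 (X.ceT hT).2)
        refine Or.inl (X.merge h0 hu hd hKy ?_ (X.near hd hpy hR'))
        exact ⟨e, hB, hT, (cor_tr ht (Or.inr rfl)).2 ⟨k1.opp, hpy⟩⟩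
      · exact Or.inr (fin hG (X.ceT hT).1 (X.ceT hT).2 hKy)
    · exact absurd (K_xe ⟨e, hB, hT, (cor_tr ht (Or.inr rfl)).2 ⟨k1, hp⟩⟩) hKx

/-- a sector in the same cluster of `G2` is in the same cluster of `G0` -/
theorem Ctx.back (X : Ctx N r ρ l C n M F G c) {x0 : ℤ × ℤ} (h0 : XA N r C n x0)
    (hK0 : K N r C n M F x0) {s : ℤ} {b : ℕ} (hb : b < 3)
    (h : RC n (G2 N r C n M F G) x0 (scz n s b)) : RC n (G0 N r C n M F) x0 (scz n s b) := by
  rcases X.main h0 hK0 h with h1 | ⟨-, h1, -⟩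
  · exact h1
  · exfalso
    have hr4 := X.r0
    rcases h1 s with h2 | h2
    · unfold scz at h2
      simp only at h2
      rw [le_abs] at h2
      omega
    · have h3 : (scz n s b).2 = 0 := rfl
      omega

end ctx

end TMA

open TMA in
/-- **step A, deterministic part** -/
theorem t_MA1 : S_TRIc → S_z2 → S_z3 → S_EX → S_XCH → S_EXA1 → S_SEPA → S_MA1 := by
  intro gT g2 g3 gE gX gA gS N r ρ l C hN hC hl hlr hrr n M hn hM F G hF hG hbad hptr hEZ
  obtain ⟨hG3, c, hc, hnc⟩ := hEZ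
  have X : Ctx N r ρ l C n M F G c :=
    { tri := gT, z2 := g2, z3 := g3, ex := gE, xch := gX, exa := gA, sepa := gS, hN := hN, hC := hC,
      hl := hl, hlr := hlr, hrr := hrr, hn := hn, hM := hM, hF := hF, hG := hG, bad := hbad,
      ptr := hptr, g3 := hG3, hc := hc, nc := hnc }
  have key : ∀ a b : ℕ, a < 3 → b < 3 → a ≠ b → a ≠ c →
      ¬ RC n (G2 N r C n M F G) (scz n 0 a) (scz n 0 b) := by
    intro a b ha hb hab hac h
    exact X.g3.1 a b ha hb hab (X.back (Or.inl ⟨0, a, ha, rfl⟩) (X.K_sec ha hac 0) hb h)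
  have key2 : ∀ a b : ℕ, a < 3 → b < 3 → a ≠ b →
      ¬ RC n (G2 N r C n M F G) (scz n 0 a) (scz n 0 b) := by
    intro a b ha hb hab h
    by_cases hac : a = c
    · exact key b a hb ha (Ne.symm hab) (fun h' => hab (hac.trans h'.symm)) (rc_symm h)
    · exact key a b ha hb hab hac h
  have hFB : FB N r C n M (mrg (ExA1 N r C n M F) F G) ⊆ CE n M := by
    classical
    intro e he
    simp only [FB, Finset.mem_filter] at he
    exact he.1
  refine ⟨?_, c, hc, ?_⟩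
  · rcases gT n M X.n2 _ hFB with h | ⟨t, a, b, ht, ha, hb, hta, htb, hab, h, -⟩
    · exact h
    · exact absurd h (key2 a b ha hb hab)
  · intro x hx h
    exact hnc x hx (rc_symm (X.back (Or.inr (Or.inl hx)) (K_xe hx) hc (rc_symm h)))

end Pool.Agent.W658.KZ
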