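import Pool.Agent.W658.KZ.Coc
import Pool.Agent.W808.KZ.T_DET
import Pool.Agent.W808.KZ.T_EXA

/-!
# Squares away from the zippers (elementary geometry for steps A and B)
-/

set_option autoImplicit false

namespace Pool.Agent.W658.KZ
open H974 H906.Cyl
open H12S (Dir hbE segD rimE H4 Crs Nr sqE)
open Pool.Agent.H160R2.ML (nm)
open Pool.Agent.H160R2.MU (Cel csq cpos prd shf BxS Bxs EP inSq PC Bad Cc)
open Pool.Agent.W808.HU (PTr)
open Pool.Agent.W801.OU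
open Pool.Agent.W808.KZ

namespace TMA

open Relation (EqvGen)

/-! ### squares away from the zippers -/

/-- the square is away from the zippers -/
def Tr (n : ℕ) (e : Edg) : Prop :=
  dco e < 0 → e.1 + e.2.1 ∉ Zn n ∧ e.1 + e.2.1 + 1 ∉ Zn n

/-- corners -/
def Cn (e : Edg) (x : ℤ × ℤ) : Prop :=
  (x.1 = e.1 + e.2.1 ∨ x.1 = e.1 + e.2.1 + 1) ∧ (x.2 = dco e ∨ x.2 = dco e + 1)

/-- the opposite corner -/
def opp (e : Edg) (x : ℤ × ℤ) : ℤ × ℤ := (2 * (e.1 + e.2.1) + 1 - x.1, 2 * dco e + 1 - x.2)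

theorem Tr.zp {n : ℕ} {e : Edg} (h : Tr n e) : e ∉ zp (Zn n) := fun h' => (h h'.1).2 h'.2

theorem Tr.nrm0 {n : ℕ} {e : Edg} (h : Tr n e) (t : ℤ) :
    nrm (Zn n) (dco e) (e.1 + e.2.1) t = (e.1 + e.2.1, t) := by
  unfold nrm
  rw [if_neg (fun h' => (h h'.1).1 h'.2)]

theorem Tr.nrm1 {n : ℕ} {e : Edg} (h : Tr n e) (t : ℤ) :
    nrm (Zn n) (dco e) (e.1 + e.2.1 + 1) t = (e.1 + e.2.1 + 1, t) := by
  unfold nrm
  rw [if_neg (fun h' => (h h'.1).2 h'.2)]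

theorem opp_opp (e : Edg) (x : ℤ × ℤ) : opp e (opp e x) = x := by
  unfold opp
  exact Prod.ext (by simp only; ring) (by simp only; ring)

theorem Cn.opp {e : Edg} {x : ℤ × ℤ} (h : Cn e x) : Cn e (opp e x) := by
  unfold Cn TMA.opp at *
  simp only
  omega

theorem opp_par {e : Edg} {x : ℤ × ℤ} : ((opp e x).1 + (opp e x).2) % 2 = (x.1 + x.2) % 2 := by
  unfold opp
  simp only
  omega

theorem dg_tr {n : ℕ} {e : Edg} {c : ℤ} {x y : ℤ × ℤ} (h : Tr n e) (hc : c = 0 ∨ c = 1)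
    (hd : Dg (Zn n) c e x y) : Cn e x ∧ (x.1 + x.2) % 2 = c ∧ y = opp e x := by
  cases hd with
  | rise hp =>
    rw [h.nrm0, h.nrm1]
    unfold Cn opp
    simp only
    refine ⟨⟨Or.inl trivial, Or.inl trivial⟩, by omega, ?_⟩
    exact Prod.ext (by simp only; ring) (by simp only; ring)
  | fall hp =>
    rw [h.nrm0, h.nrm1]
    unfold Cn opp
    simp only
    refine ⟨⟨Or.inl trivial, Or.inr trivial⟩, by omega, ?_⟩
    exact Prod.ext (by simp only; ring) (by simp only; ring)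

theorem dg_tr' {n : ℕ} {e : Edg} {c : ℤ} {x : ℤ × ℤ} (h : Tr n e) (_ : c = 0 ∨ c = 1)
    (hx : Cn e x) (hp : (x.1 + x.2) % 2 = c) :
    Dg (Zn n) c e x (opp e x) ∨ Dg (Zn n) c e (opp e x) x := by
  by_cases hq : (e.1 + e.2.1 + dco e) % 2 = c
  · have h1 := Dg.rise (Z := Zn n) hq
    rw [h.nrm0, h.nrm1] at h1
    obtain ⟨x1, x2⟩ := x
    unfold Cn at hx
    simp only at hx hp
    have h2 : (x1 = e.1 + e.2.1 ∧ x2 = dco e) ∨ (x1 = e.1 + e.2.1 + 1 ∧ x2 = dco e + 1) := by omega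
    rcases h2 with ⟨rfl, rfl⟩ | ⟨rfl, rfl⟩
    · left
      convert h1 using 1
      unfold opp
      exact Prod.ext (by simp only; ring) (by simp only; ring)
    · right
      convert h1 using 1
      unfold opp
      exact Prod.ext (by simp only; ring) (by simp only; ring)
  · have h1 := Dg.fall (Z := Zn n) (c := c) (e := e) (by omega)
    rw [h.nrm0, h.nrm1] at h1
    obtain ⟨x1, x2⟩ := x
    unfold Cn at hx
    simp only at hx hp
    have h2 : (x1 = e.1 + e.2.1 ∧ x2 = dco e + 1) ∨ (x1 = e.1 + e.2.1 + 1 ∧ x2 = dco e) := by omega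
    rcases h2 with ⟨rfl, rfl⟩ | ⟨rfl, rfl⟩
    · left
      convert h1 using 1
      unfold opp
      exact Prod.ext (by simp only; ring) (by simp only; ring)
    · right
      convert h1 using 1
      unfold opp
      exact Prod.ext (by simp only; ring) (by simp only; ring)

theorem cor_tr {n : ℕ} {e : Edg} {c : ℤ} {x : ℤ × ℤ} (h : Tr n e) (hc : c = 0 ∨ c = 1) :
    Cor (Zn n) c e x ↔ Cn e x ∧ (x.1 + x.2) % 2 = c := by
  constructor
  · rintro ⟨-, y, h1 | h1⟩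
    · have := dg_tr h hc h1
      exact ⟨this.1, this.2.1⟩
    · obtain ⟨h2, h3, rfl⟩ := dg_tr h hc h1
      exact ⟨h2.opp, by rw [opp_par]; exact h3⟩
  · rintro ⟨h1, h2⟩
    exact ⟨h.zp, opp e x, dg_tr' h hc h1 h2⟩

/-- corners of general squares -/
theorem dg_near {Z : Set ℤ} {c : ℤ} {e : Edg} {x y : ℤ × ℤ} (h : Dg Z c e x y) :
    (e.1 + e.2.1 - 1 ≤ x.1 ∧ x.1 ≤ e.1 + e.2.1 + 1 ∧ dco e ≤ x.2 ∧ x.2 ≤ dco e + 1) ∧
    (e.1 + e.2.1 - 1 ≤ y.1 ∧ y.1 ≤ e.1 + e.2.1 + 1 ∧ dco e ≤ y.2 ∧ y.2 ≤ dco e + 1) := by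
  cases h with
  | rise hp => unfold nrm; split_ifs <;> simp only <;> omega
  | fall hp => unfold nrm; split_ifs <;> simp only <;> omega

theorem cor_near {Z : Set ℤ} {c : ℤ} {e : Edg} {x : ℤ × ℤ} (h : Cor Z c e x) :
    e.1 + e.2.1 - 1 ≤ x.1 ∧ x.1 ≤ e.1 + e.2.1 + 1 ∧ dco e ≤ x.2 ∧ x.2 ≤ dco e + 1 := by
  obtain ⟨-, y, h | h⟩ := h
  · exact (dg_near h).1
  · exact (dg_near h).2

/-- links of a connection, in both directions -/
def St (n : ℕ) (G : Set Edg) (e : Edg) (x y : ℤ × ℤ) : Prop :=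
  e ∉ zp (Zn n) ∧ ((e ∈ G ∧ (Dg (Zn n) 0 e x y ∨ Dg (Zn n) 0 e y x)) ∨
    (e ∉ G ∧ (Dg (Zn n) 1 e x y ∨ Dg (Zn n) 1 e y x)))

theorem St.rc {n : ℕ} {G : Set Edg} {e : Edg} {x y : ℤ × ℤ} (h : St n G e x y) : RC n G x y := by
  obtain ⟨hz, ⟨h1, h2 | h2⟩ | ⟨h1, h2 | h2⟩⟩ := h
  · exact EqvGen.rel _ _ ⟨e, trivial, hz, Or.inl ⟨h1, h2⟩⟩
  · exact EqvGen.symm _ _ (EqvGen.rel _ _ ⟨e, trivial, hz, Or.inl ⟨h1, h2⟩⟩)
  · exact EqvGen.rel _ _ ⟨e, trivial, hz, Or.inr ⟨h1, h2⟩⟩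
  · exact EqvGen.symm _ _ (EqvGen.rel _ _ ⟨e, trivial, hz, Or.inr ⟨h1, h2⟩⟩)

theorem St.mono {n : ℕ} {G G' : Set Edg} {e : Edg} {x y : ℤ × ℤ} (h : St n G e x y)
    (hG : e ∈ G ↔ e ∈ G') : St n G' e x y := by
  obtain ⟨hz, h⟩ := h
  rw [hG] at h
  exact ⟨hz, h⟩

/-- a property which is closed under links is closed under connections -/
theorem step_closed {n : ℕ} {G : Set Edg} {P : ℤ × ℤ → Prop}
    (h : ∀ (e : Edg) (x y : ℤ × ℤ), St n G e x y → P x → P y) {x y : ℤ × ℤ} (hxy : RC n G x y) :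
    P x ↔ P y := by
  induction hxy with
  | refl x => exact Iff.rfl
  | symm x y _ ih => exact ih.symm
  | trans x y z _ _ ih1 ih2 => exact ih1.trans ih2
  | rel x y h1 =>
    obtain ⟨e, -, hz, h2⟩ := h1
    constructor
    · refine h e x y ⟨hz, ?_⟩
      exact h2.imp (fun h => ⟨h.1, Or.inl h.2⟩) (fun h => ⟨h.1, Or.inl h.2⟩)
    · refine h e y x ⟨hz, ?_⟩
      exact h2.imp (fun h => ⟨h.1, Or.inr h.2⟩) (fun h => ⟨h.1, Or.inr h.2⟩)

theorem rc_refl {n : ℕ} {G : Set Edg} (x : ℤ × ℤ) : RC n G x x := EqvGen.refl _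
theorem rc_symm {n : ℕ} {G : Set Edg} {x y : ℤ × ℤ} (h : RC n G x y) : RC n G y x :=
  EqvGen.symm _ _ h
theorem rc_trans {n : ℕ} {G : Set Edg} {x y z : ℤ × ℤ} (h : RC n G x y) (h' : RC n G y z) :
    RC n G x z := EqvGen.trans _ _ _ h h'

/-- the class of a link tells the corner -/
theorem St.cor {n : ℕ} {G : Set Edg} {e : Edg} {x y : ℤ × ℤ} (h : St n G e x y) :
    (e ∈ G ∧ Cor (Zn n) 0 e x ∧ Cor (Zn n) 0 e y) ∨
      (e ∉ G ∧ Cor (Zn n) 1 e x ∧ Cor (Zn n) 1 e y) := by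
  obtain ⟨hz, ⟨h1, h2⟩ | ⟨h1, h2⟩⟩ := h
  · exact Or.inl ⟨h1, ⟨hz, y, h2⟩, ⟨hz, x, h2.symm⟩⟩
  · exact Or.inr ⟨h1, ⟨hz, y, h2⟩, ⟨hz, x, h2.symm⟩⟩

/-- links of squares away from the zippers -/
theorem St.tr {n : ℕ} {G : Set Edg} {e : Edg} {x y : ℤ × ℤ} (h : St n G e x y) (ht : Tr n e) :
    Cn e x ∧ y = opp e x ∧ (e ∈ G ↔ (x.1 + x.2) % 2 = 0) := by
  have key : ∀ c : ℤ, (c = 0 ∨ c = 1) → (Dg (Zn n) c e x y ∨ Dg (Zn n) c e y x) →
      Cn e x ∧ (x.1 + x.2) % 2 = c ∧ y = opp e x := by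
    intro c hc hd
    rcases hd with hd | hd
    · exact dg_tr ht hc hd
    · obtain ⟨h1, h2, rfl⟩ := dg_tr ht hc hd
      refine ⟨h1.opp, by rw [opp_par]; exact h2, (opp_opp e y).symm⟩
  obtain ⟨hz, ⟨h1, h2⟩ | ⟨h1, h2⟩⟩ := h
  · obtain ⟨k1, k2, k3⟩ := key 0 (Or.inl rfl) h2
    exact ⟨k1, k3, ⟨fun _ => k2, fun _ => h1⟩⟩
  · obtain ⟨k1, k2, k3⟩ := key 1 (Or.inr rfl) h2
    exact ⟨k1, k3, ⟨fun h => absurd h h1, fun h => by omega⟩⟩

theorem st_tr {n : ℕ} {G : Set Edg} {e : Edg} {x : ℤ × ℤ} (ht : Tr n e) (hx : Cn e x)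
    (hG : e ∈ G ↔ (x.1 + x.2) % 2 = 0) : St n G e x (opp e x) := by
  refine ⟨ht.zp, ?_⟩
  by_cases h : e ∈ G
  · exact Or.inl ⟨h, dg_tr' ht (Or.inl rfl) hx (hG.1 h)⟩
  · have : (x.1 + x.2) % 2 = 1 := by
      have := mt hG.2 h
      omega
    exact Or.inr ⟨h, dg_tr' ht (Or.inr rfl) hx this⟩

/-! ### points far from the zippers -/

/-- neighbours -/
def nb (x y : ℤ × ℤ) : Prop := y = (x.1 + 1, x.2) ∨ y = (x.1 - 1, x.2) ∨ y = (x.1, x.2 + 1) ∨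
  y = (x.1, x.2 - 1)

/-- far from the zippers -/
def Far (n r : ℕ) (y : ℤ × ℤ) : Prop := ∀ q : ℤ, (2 * r : ℤ) ≤ |y.1 - 2 * n * q| ∨ (2 * r : ℤ) ≤ y.2

theorem Far.tr {n r : ℕ} (hr : 2 ≤ r) {y : ℤ × ℤ} (h : Far n r y) {e : Edg}
    (h1 : y.1 - 1 ≤ e.1 + e.2.1) (h2 : e.1 + e.2.1 ≤ y.1) (h3 : y.2 - 1 ≤ dco e) : Tr n e := by
  intro hd
  constructor
  · intro hs
    obtain ⟨q, hq⟩ := TCOC.mem_Zn.1 hs
    rcases h q with h | h
    · rw [← hq] at h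
      have : |y.1 - (e.1 + e.2.1)| ≤ 1 := by rw [abs_le]; constructor <;> omega
      omega
    · omega
  · intro hs
    obtain ⟨q, hq⟩ := TCOC.mem_Zn.1 hs
    rcases h q with h | h
    · rw [← hq] at h
      have : |y.1 - (e.1 + e.2.1 + 1)| ≤ 1 := by rw [abs_le]; constructor <;> omega
      omega
    · omega

theorem Far.trc {n r : ℕ} (hr : 2 ≤ r) {y : ℤ × ℤ} (h : Far n r y) {e : Edg} (he : Cn e y) :
    Tr n e := by
  unfold Cn at he
  exact h.tr hr (by omega) (by omega) (by omega)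

/-- the square of a corner in normal form far from the zippers -/
theorem Far.cor {n r : ℕ} (hr : 2 ≤ r) {y : ℤ × ℤ} (h : Far n r y) {c : ℤ} {e : Edg}
    (he : Cor (Zn n) c e y) : Tr n e := by
  have hn := cor_near he
  intro hd
  constructor
  · intro hs
    obtain ⟨q, hq⟩ := TCOC.mem_Zn.1 hs
    rcases h q with h | h
    · rw [← hq] at h
      have : |y.1 - (e.1 + e.2.1)| ≤ 1 := by rw [abs_le]; constructor <;> omega
      omega
    · omega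
  · intro hs
    exact he.1 ⟨hd, hs⟩

/-- sides -/
theorem Far.side {n r : ℕ} (hr : 2 ≤ r) {y v : ℤ × ℤ} (h : Far n r y) (hv : nb y v) :
    Side (Zn n) y v ∨ Side (Zn n) v y := by
  have key : ∀ s d : ℤ, y.1 - 1 ≤ s → s ≤ y.1 → y.2 - 1 ≤ d → Tr n (edz s d) := by
    intro s d h1 h2 h3
    exact h.tr hr (by rw [TCOC.edz_s]; exact h1) (by rw [TCOC.edz_s]; exact h2)
      (by rw [TCOC.edz_d]; exact h3)
  rcases hv with rfl | rfl | rfl | rfl
  · left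
    have ht := key y.1 y.2 (by omega) (by omega) (by omega)
    have := Side.bot _ ht.zp
    rw [ht.nrm0, ht.nrm1, TCOC.edz_s, TCOC.edz_d] at this
    exact this
  · right
    have ht := key (y.1 - 1) y.2 (by omega) (by omega) (by omega)
    have := Side.bot _ ht.zp
    rw [ht.nrm0, ht.nrm1, TCOC.edz_s, TCOC.edz_d, sub_add_cancel] at this
    exact this
  · left
    have ht := key y.1 y.2 (by omega) (by omega) (by omega)
    have := Side.lft _ ht.zp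
    rw [ht.nrm0, ht.nrm0, TCOC.edz_s, TCOC.edz_d] at this
    exact this
  · right
    have ht := key y.1 (y.2 - 1) (by omega) (by omega) (by omega)
    have := Side.lft _ ht.zp
    rw [ht.nrm0, ht.nrm0, TCOC.edz_s, TCOC.edz_d, sub_add_cancel] at this
    exact this

/-! ### faces -/

/-- the lower left corner of a face -/
def fpi (x : ℤ × ℤ) : Vtx := ((x.1 - 1 + x.2) / 2, (x.1 - 1 - x.2) / 2)

/-- closed squares give the links of class `1` -/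
theorem reach_lk {n M : ℕ} {G : Finset Edg} {e : Edg} {x : ℤ × ℤ} (hx : Cn e x)
    (hp : (x.1 + x.2) % 2 = 1) (he : e ∉ per n G) (h1 : -(M : ℤ) ≤ dco e) (h2 : dco e < M) :
    Reach (Cc 1 n M G) (fpi x) (fpi (opp e x)) := by
  set e' := edz (e.1 + e.2.1 - 1) (dco e) with he'
  have hs : e'.1 + e'.2.1 = e.1 + e.2.1 - 1 := TCOC.edz_s _ _
  have hd : dco e' = dco e := TCOC.edz_d _ _
  have hm : e' ∈ Cc 1 n M G := by
    show (if (1:ℕ) = 0 then e' ∈ per n G else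
      -(M : ℤ) ≤ dco e' ∧ dco e' < M ∧ edz (e'.1 + e'.2.1 + 1) (dco e') ∉ per n G)
    rw [if_neg one_ne_zero, hs, hd, sub_add_cancel, edz_of]
    exact ⟨h1, h2, he⟩
  have key : (src e' = fpi x ∧ tgt e' = fpi (opp e x)) ∨
      (src e' = fpi (opp e x) ∧ tgt e' = fpi x) := by
    clear hm he
    clear_value e'
    clear he'
    obtain ⟨a, b, t⟩ := e'
    unfold Cn at hx
    unfold opp
    obtain ⟨x1, x2⟩ := x
    simp only at hx hp hs
    have k1 : ∃ s, s = e.1 + e.2.1 := ⟨_, rfl⟩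
    have k2 : ∃ d, d = dco e := ⟨_, rfl⟩
    obtain ⟨s, k1⟩ := k1
    obtain ⟨d, k2⟩ := k2
    rw [← k1] at hx hs ⊢
    rw [← k2] at hx hd ⊢
    clear h1 h2
    cases t
    · simp only [dco, Bool.false_eq_true, if_false] at hd
      simp only [src_mk, tgt_false, fpi, Prod.mk.injEq]
      omega
    · simp only [dco, if_true] at hd
      simp only [src_mk, tgt_true, fpi, Prod.mk.injEq]
      omega
  refine Relation.ReflTransGen.single ⟨e', hm, ?_⟩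
  rcases key with ⟨k1, k2⟩ | ⟨k1, k2⟩
  · exact Or.inl ⟨k1, k2⟩
  · exact Or.inr ⟨k1, k2⟩

/-- small clusters -/
theorem nr_fpi {l : ℕ} {u v : ℤ × ℤ} (hu : (u.1 + u.2) % 2 = 1) (hv : (v.1 + v.2) % 2 = 1)
    (h : Nr (4 * l) (fpi u) (fpi v)) : nrp l u v := by
  unfold Nr fpi at h
  unfold nrp
  simp only [abs_le] at h ⊢
  omega

end TMA

end Pool.Agent.W658.KZ
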