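import Pool.Agent.W808.KZ.Stm

/-!
# Upper bound for the three arm event of the dislocated plane: repaired steps A and B

Step A explores only the clusters of the closed region (`KA1`).  Step B explores, for a fixed sector
`c`, the clusters of the sectors `c` (`KB1`) and the local clusters of class `0` (`KL`) in the strip
`Yb` along the closed region.  Planarity enters through `S_COC`.
-/

set_option autoImplicit false

namespace Pool.Agent.W658.KZ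
open H974 H906.Cyl
open H12S (Dir hbE segD rimE H4 Crs Nr sqE)
open Pool.Agent.H160R2.ML (nm)
open Pool.Agent.H160R2.MU (Cel csq cpos prd shf BxS Bxs EP inSq PC Bad Cc)
open Pool.Agent.W808.HU (PTr)
open Pool.Agent.W801.OU
open Pool.Agent.W808.KZ

/-! ## planarity -/

/-- the four sides of the squares (adjacent points) -/
inductive Side (Z : Set ℤ) : ℤ × ℤ → ℤ × ℤ → Prop
  | bot (e : Edg) : e ∉ zp Z → Side Z (nrm Z (dco e) (e.1 + e.2.1) (dco e))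
      (nrm Z (dco e) (e.1 + e.2.1 + 1) (dco e))
  | top (e : Edg) : e ∉ zp Z → Side Z (nrm Z (dco e) (e.1 + e.2.1) (dco e + 1))
      (nrm Z (dco e) (e.1 + e.2.1 + 1) (dco e + 1))
  | lft (e : Edg) : e ∉ zp Z → Side Z (nrm Z (dco e) (e.1 + e.2.1) (dco e))
      (nrm Z (dco e) (e.1 + e.2.1) (dco e + 1))
  | rgt (e : Edg) : e ∉ zp Z → Side Z (nrm Z (dco e) (e.1 + e.2.1 + 1) (dco e))
      (nrm Z (dco e) (e.1 + e.2.1 + 1) (dco e + 1))

/-- the cocycle lemma: a symmetric relation which is invariant under connections and holds for no pair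
of sectors of the same tip is a coboundary on the sides -/
def S_COC : Prop := ∀ (n : ℕ) (G : Set Edg) (Rel : ℤ × ℤ → ℤ × ℤ → Prop), 2 ≤ n →
  (∀ x y, Rel x y → Rel y x) → (∀ x x' y, RC n G x x' → Rel x y → Rel x' y) →
  (∀ (s : ℤ) (c d : ℕ), c < 3 → d < 3 → c ≠ d → ¬ Rel (scz n s c) (scz n s d)) →
  ∃ φ : ℤ × ℤ → Prop, (∀ x y, RC n G x y → (φ x ↔ φ y)) ∧
    (∀ x y, Side (Zn n) x y → (Rel x y ↔ ¬ (φ x ↔ φ y)))

/-- adjacent points are in different clusters -/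
def S_NA : Prop := ∀ (n : ℕ) (F : Finset Edg), 2 ≤ n → G3 n (per n F) → ∀ x y : ℤ × ℤ,
  Side (Zn n) x y → ¬ RC n (per n F) x y

/-- the closed region is chained by closed squares and adjacent points -/
def S_XCH : Prop := ∀ (N r : ℕ) (C : Cel), 16 ≤ N → 4 ≤ r → AdmZ N C → ∀ n : ℕ,
  n = prd N N * r → ∀ φ : ℤ × ℤ → Prop,
  (∀ x y, RZ (Zn n) {e | e ∉ EB N r ∧ e ∉ ET N r C} ∅ x y → (φ x ↔ φ y)) →
  (∀ x y, XE N r C n x → XE N r C n y → Side (Zn n) x y → (φ x ↔ φ y)) →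
  (∀ x y, XE N r C n x → XE N r C n y → x.2 < (3 * N + 1) * r → y.2 < (3 * N + 1) * r →
    (φ x ↔ φ y)) ∧
  (∀ (x : ℤ × ℤ) (q : ℤ), XE N r C n x → (3 * N + 1) * r ≤ x.2 → (φ x ↔ φ (x.1 + 2 * n * q, x.2)))

/-! ## step A -/

/-- the clusters of the closed region -/
def KA1 (N r : ℕ) (C : Cel) (n M : ℕ) (F : Finset Edg) (x : ℤ × ℤ) : Prop :=
  ∃ y, XE N r C n y ∧ RC n (per n (FA N r C n M F)) y x

open Classical in
/-- the explored squares -/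
noncomputable def ExA1 (N r : ℕ) (C : Cel) (n M : ℕ) (F : Finset Edg) : Finset Edg :=
  (CE n M).filter (fun e => e ∈ EB N r ∧
    ∃ x, KA1 N r C n M F x ∧ (Cor (Zn n) 0 e x ∨ Cor (Zn n) 1 e x))

/-- stability -/
def S_EXA1 : Prop := ∀ (N r : ℕ) (C : Cel), 16 ≤ N → 2 ≤ r → AdmZ N C → ∀ (n M : ℕ),
  n = prd N N * r → M = 4 * n → ∀ F G : Finset Edg, F ⊆ CE n M → G ⊆ CE n M →
  ExA1 N r C n M (mrg (ExA1 N r C n M F) F G) = ExA1 N r C n M F ∧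
  (∀ x, KA1 N r C n M (mrg (ExA1 N r C n M F) F G) x ↔ KA1 N r C n M F x) ∧
  (∀ x y, KA1 N r C n M F x → (RC n (per n (FA N r C n M (mrg (ExA1 N r C n M F) F G))) x y ↔
    RC n (per n (FA N r C n M F)) x y))

/-- step A, deterministic part -/
def S_MA1 : Prop := ∀ (N r ρ l : ℕ) (C : Cel), 16 ≤ N → AdmZ N C → 1 ≤ l → 32 * l ≤ ρ →
  64 * ρ ≤ r → ∀ (n M : ℕ), n = prd N N * r → M = 4 * n → ∀ F G : Finset Edg, F ⊆ CE n M →
  G ⊆ CE n M → ¬ Bad 1 N r ρ l (prd N N) n M F → PTr 1 n M l G →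
  EZ N r C n (per n (FA N r C n M F)) →
  EZ N r C n (per n (FB N r C n M (mrg (ExA1 N r C n M F) F G)))

/-! ## step B -/

/-- squares near the closed region -/
def NrD (N r ρ : ℕ) (C : Cel) (e : Edg) : Prop :=
  ∃ e' : Edg, e' ∉ EB N r ∧ e' ∉ ET N r C ∧ |e.1 - e'.1| ≤ 2 * ρ ∧ |e.2.1 - e'.2.1| ≤ 2 * ρ

/-- squares near the point `(-N r, N r)` (modulo `(n, n)`) where a zipper leaves a box -/
def Exi (N r ρ n : ℕ) (e : Edg) : Prop :=
  ∃ s : ℤ, |e.1 + N * r - n * s| ≤ 5 * ρ ∧ |e.2.1 - N * r - n * s| ≤ 5 * ρ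

/-- the strip -/
def Yb (N r ρ : ℕ) (C : Cel) (n : ℕ) : Set Edg :=
  {e | (e ∈ EB N r ∨ e ∈ ET N r C) ∧ NrD N r ρ C e ∧ ¬ Exi N r ρ n e}

/-- the local clusters of class `0` in the strip (of the vertices which touch a square of the boxes or
of the tube outside the strip) -/
def KL (N r ρ : ℕ) (C : Cel) (n : ℕ) (F : Finset Edg) (v : Vtx) : Prop :=
  ∃ (w : Vtx) (e : Edg), (e ∈ EB N r ∨ e ∈ ET N r C) ∧ e ∉ Yb N r ρ C n ∧ (src e = w ∨ tgt e = w) ∧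
    Reach (per n F ∩ Yb N r ρ C n) w v

/-- vertices of the closed region -/
def DvB (N r : ℕ) (C : Cel) (v : Vtx) : Prop :=
  ∃ e : Edg, e ∉ EB N r ∧ e ∉ ET N r C ∧ (src e = v ∨ tgt e = v)

/-- the clusters of the sectors `c` -/
def KB1 (c N r : ℕ) (C : Cel) (n M : ℕ) (F : Finset Edg) (x : ℤ × ℤ) : Prop :=
  ∃ s : ℤ, RC n (per n (FB N r C n M F)) (scz n s c) x

open Classical in
/-- the explored squares -/
noncomputable def ExB1 (c N r ρ : ℕ) (C : Cel) (n M : ℕ) (F : Finset Edg) : Finset Edg :=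
  (CE n M).filter (fun e => (e ∈ EB N r ∨ e ∈ ET N r C) ∧
    ((∃ x, KB1 c N r C n M F x ∧ (Cor (Zn n) 0 e x ∨ Cor (Zn n) 1 e x)) ∨
      (e ∈ Yb N r ρ C n ∧ (KL N r ρ C n F (src e) ∨ KL N r ρ C n F (tgt e)))))

/-- the leg event, and the sector `c` is not connected to the closed region -/
def EZc (c N r : ℕ) (C : Cel) (n : ℕ) (G : Set Edg) : Prop :=
  G3 n G ∧ ∀ x : ℤ × ℤ, XE N r C n x → ¬ RC n G (scz n 0 c) x

/-- stability -/
def S_EXB1 : Prop := ∀ (c N r ρ : ℕ) (C : Cel), 16 ≤ N → 2 ≤ r → 1 ≤ ρ → 64 * ρ ≤ r → AdmZ N C →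
  ∀ (n M : ℕ), n = prd N N * r → M = 4 * n → ∀ F G : Finset Edg, F ⊆ CE n M → G ⊆ CE n M →
  ExB1 c N r ρ C n M (mrg (ExB1 c N r ρ C n M F) F G) = ExB1 c N r ρ C n M F ∧
  (∀ v, KL N r ρ C n (mrg (ExB1 c N r ρ C n M F) F G) v ↔ KL N r ρ C n F v) ∧
  (∀ (s : ℤ) (x : ℤ × ℤ),
    (RC n (per n (FB N r C n M (mrg (ExB1 c N r ρ C n M F) F G))) (scz n s c) x ↔
      RC n (per n (FB N r C n M F)) (scz n s c) x))

/-- the strip is far from the zippers -/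
def S_STR : Prop := ∀ (N r ρ : ℕ) (C : Cel), 16 ≤ N → 16 ≤ ρ → 64 * ρ ≤ r → AdmZ N C → ∀ n : ℕ,
  n = prd N N * r → ∀ e ∈ Yb N r ρ C n, ∀ s : ℤ, (ρ : ℤ) ≤ |e.1 + e.2.1 - 2 * n * s| ∨
    (ρ : ℤ) ≤ dco e

/-- the clusters of the sectors `c` stay away from the points where the zippers leave the boxes -/
def S_FRB : Prop := ∀ (c N r ρ : ℕ) (C : Cel), c < 3 → 16 ≤ N → AdmZ N C → 16 ≤ ρ → 64 * ρ ≤ r →
  ∀ (n M : ℕ), n = prd N N * r → M = 4 * n → ∀ F : Finset Edg, F ⊆ CE n M → ¬ BZ N r ρ n F →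
  (∀ x : ℤ × ℤ, XE N r C n x → ¬ RC n (per n (FB N r C n M F)) (scz n 0 c) x) →
  ∀ (s s' : ℤ) (x : ℤ × ℤ), RC n (per n (FB N r C n M F)) (scz n s c) x →
  (16 * ρ : ℤ) < |x.1 - 2 * n * s'| ∨ (16 * ρ : ℤ) < |x.2 + 2 * N * r|

/-- separation: the cluster of a sector `c` and the local clusters of class `0` of the strip -/
def S_SEPB1 : Prop := ∀ (c N r ρ l : ℕ) (C : Cel), c < 3 → 16 ≤ N → AdmZ N C → 1 ≤ l →
  32 * l ≤ ρ → 64 * ρ ≤ r → ∀ (n M : ℕ), n = prd N N * r → M = 4 * n → ∀ F : Finset Edg,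
  F ⊆ CE n M → ¬ Bad 0 N r ρ l (prd N N) n M F → ¬ BZ N r ρ n F →
  (∀ x : ℤ × ℤ, XE N r C n x → ¬ RC n (per n (FB N r C n M F)) (scz n 0 c) x) →
  ∀ (s : ℤ) (u v : Vtx), RC n (per n (FB N r C n M F)) (scz n s c) (vp u) →
  DvB N r C u → DvB N r C v → KL N r ρ C n F v → Nr (4 * l) u v →
  RC n (per n (FB N r C n M F)) (vp u) (vp v)

/-- step B, deterministic part -/
def S_MB1 : Prop := ∀ (c N r ρ l : ℕ) (C : Cel), c < 3 → 16 ≤ N → AdmZ N C → 1 ≤ l →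
  32 * l ≤ ρ → 64 * ρ ≤ r → ∀ (n M : ℕ), n = prd N N * r → M = 4 * n → ∀ F G : Finset Edg,
  F ⊆ CE n M → G ⊆ CE n M → ¬ Bad 0 N r ρ l (prd N N) n M F → ¬ BZ N r ρ n F → PTr 0 n M l G →
  EZc c N r C n (per n (FB N r C n M F)) →
  One n M (per n (mrg (ExB1 c N r ρ C n M F) F G))

end Pool.Agent.W658.KZ
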